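import Mathlib

namespace Pool.Agent.Results.MP_11d8b4_co.RealNotPositive

open SimpleGraph

/-- A path system on `G`: one simple path `path u v` for every pair, with
`path v u` the reversal of `path u v` (for `u = v` this is the trivial path). -/
structure PathSystem {V : Type*} (G : SimpleGraph V) where
  path : ∀ u v : V, G.Walk u v
  isPath : ∀ u v : V, (path u v).IsPath
  symm : ∀ u v : V, path v u = (path u v).reverse

/-- Consistency: for `x`, `y` on `P_{u,v}`, the path `P_{x,y}` is the contiguous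
subpath of `P_{u,v}` between `x` and `y` (read in the appropriate direction). -/
def Consistent {V : Type*} {G : SimpleGraph V} (P : PathSystem G) : Prop :=
  ∀ u v x y : V, x ∈ (P.path u v).support → y ∈ (P.path u v).support →
    (P.path x y).IsSubwalk (P.path u v) ∨ (P.path y x).IsSubwalk (P.path u v)

/-- The weight of a walk: the sum of the weights of its edges. -/
noncomputable def weight {V : Type*} {G : SimpleGraph V} (w : Sym2 V → ℝ) {u v : V}
    (p : G.Walk u v) : ℝ := (p.edges.map w).sum

/-- `w` simply induces `P`: for distinct `u, v`, the path `P_{u,v}` is the unique simple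
`u`-`v` path of minimum weight. -/
def SimplyInduces {V : Type*} {G : SimpleGraph V} (w : Sym2 V → ℝ) (P : PathSystem G) : Prop :=
  ∀ u v : V, u ≠ v → ∀ q : G.Walk u v, q.IsPath → q ≠ P.path u v →
    weight w (P.path u v) < weight w q

/-- The integer weights of the example (`0` = not an edge). -/
def c (a b : Fin 7) : ℤ :=
  match a.val, b.val with
  | 0, 1 => -4 | 1, 0 => -4
  | 0, 2 => 5 | 2, 0 => 5
  | 0, 4 => 6 | 4, 0 => 6
  | 1, 3 => 9 | 3, 1 => 9
  | 1, 5 => 9 | 5, 1 => 9
  | 2, 6 => 4 | 6, 2 => 4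
  | 4, 6 => 4 | 6, 4 => 4
  | 3, 6 => 8 | 6, 3 => 8
  | 5, 6 => 8 | 6, 5 => 8
  | _, _ => 0

theorem c_symm : ∀ a b, c a b = c b a := by decide

/-- The graph of the example. -/
def G : SimpleGraph (Fin 7) where
  Adj a b := c a b ≠ 0
  symm := ⟨fun a b h => by rwa [c_symm]⟩
  loopless := ⟨fun a => by revert a; decide⟩

instance : DecidableRel G.Adj := fun a b => inferInstanceAs (Decidable (c a b ≠ 0))

noncomputable def w : Sym2 (Fin 7) → ℝ :=
  Sym2.lift ⟨fun a b => (c a b : ℝ), fun a b => by
    show ((c a b : ℤ) : ℝ) = ((c b a : ℤ) : ℝ)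
    rw [c_symm]⟩

def lcost : List (Fin 7) → ℤ
  | a :: b :: l => c a b + lcost (b :: l)
  | _ => 0

def L (a b : Fin 7) : List (Fin 7) :=
  match a.val, b.val with
  | 0, 0 => [0] | 0, 1 => [0, 1] | 0, 2 => [0, 2] | 0, 3 => [0, 1, 3] | 0, 4 => [0, 4]
  | 0, 5 => [0, 1, 5] | 0, 6 => [0, 2, 6]
  | 1, 0 => [1, 0] | 1, 1 => [1] | 1, 2 => [1, 0, 2] | 1, 3 => [1, 3] | 1, 4 => [1, 0, 4]
  | 1, 5 => [1, 5] | 1, 6 => [1, 0, 2, 6]
  | 2, 0 => [2, 0] | 2, 1 => [2, 0, 1] | 2, 2 => [2] | 2, 3 => [2, 0, 1, 3] | 2, 4 => [2, 6, 4]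
  | 2, 5 => [2, 0, 1, 5] | 2, 6 => [2, 6]
  | 3, 0 => [3, 1, 0] | 3, 1 => [3, 1] | 3, 2 => [3, 1, 0, 2] | 3, 3 => [3]
  | 3, 4 => [3, 1, 0, 4] | 3, 5 => [3, 6, 5] | 3, 6 => [3, 6]
  | 4, 0 => [4, 0] | 4, 1 => [4, 0, 1] | 4, 2 => [4, 6, 2] | 4, 3 => [4, 0, 1, 3] | 4, 4 => [4]
  | 4, 5 => [4, 0, 1, 5] | 4, 6 => [4, 6]
  | 5, 0 => [5, 1, 0] | 5, 1 => [5, 1] | 5, 2 => [5, 1, 0, 2] | 5, 3 => [5, 6, 3]
  | 5, 4 => [5, 1, 0, 4] | 5, 5 => [5] | 5, 6 => [5, 6]
  | 6, 0 => [6, 2, 0] | 6, 1 => [6, 2, 0, 1] | 6, 2 => [6, 2] | 6, 3 => [6, 3] | 6, 4 => [6, 4]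
  | 6, 5 => [6, 5] | 6, 6 => [6]
  | _, _ => []

def ok (a : Fin 7) (l : List (Fin 7)) : Bool :=
  decide (a ∉ l) && (match l with | [] => true | b :: _ => decide (c a b ≠ 0))

def enum : ℕ → List (List (Fin 7))
  | 0 => [[]]
  | n + 1 => (enum n).flatMap fun l =>
      ((List.finRange 7).filter fun a => ok a l).map fun a => a :: l

theorem mem_enum : ∀ l : List (Fin 7), l.Nodup → l.IsChain G.Adj → l ∈ enum l.length
  | [], _, _ => by simp [enum]
  | a :: l, hn, hc => by
    have h1 := mem_enum l (List.nodup_cons.1 hn).2 hc.of_cons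
    simp only [enum, List.length_cons, List.mem_flatMap, List.mem_map, List.mem_filter,
      List.mem_finRange, true_and]
    refine ⟨l, h1, a, ?_, rfl⟩
    unfold ok
    have h2 : a ∉ l := (List.nodup_cons.1 hn).1
    cases l with
    | nil => simp
    | cons b t =>
      have h3 : G.Adj a b := hc.rel
      have h4 : c a b ≠ 0 := h3
      simp only [h2, not_false_eq_true, decide_true, Bool.true_and]
      simpa using h4

def chk (l : List (Fin 7)) : Bool :=
  match l.head?, l.getLast? with
  | some a, some b => decide (l = L a b) || decide (lcost (L a b) < lcost l)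
  | _, _ => true

theorem chk_all : ∀ n < 8, ∀ l ∈ enum n, chk l = true := by decide +kernel

theorem weight_eq : ∀ {u v : Fin 7} (p : G.Walk u v), weight w p = (lcost p.support : ℝ)
  | _, _, .nil => by simp [weight, lcost]
  | _, _, .cons (v := v) h p => by
    have ih := weight_eq p
    unfold weight at *
    rw [Walk.edges_cons, List.map_cons, List.sum_cons, ih, Walk.support_cons]
    cases p with
    | nil => simp [lcost, w]
    | cons h' p' => simp [lcost, w]

theorem L_ok : ∀ u v : Fin 7, L u v ≠ [] ∧ (L u v).head? = some u ∧ (L u v).getLast? = some v ∧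
    (L u v).IsChain G.Adj ∧ (L u v).Nodup ∧ L v u = (L u v).reverse := by
  decide +kernel

theorem exists_walk (l : List (Fin 7)) (u v : Fin 7) (h0 : l ≠ []) (h1 : l.head? = some u)
    (h2 : l.getLast? = some v) (h3 : l.IsChain G.Adj) : ∃ p : G.Walk u v, p.support = l := by
  have hu : l.head h0 = u := by
    have := List.head?_eq_some_head h0
    rw [h1] at this; exact (Option.some_injective _ this).symm
  have hv : l.getLast h0 = v := by
    have := List.getLast?_eq_some_getLast h0
    rw [h2] at this; exact (Option.some_injective _ this).symm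
  exact ⟨(Walk.ofSupport l h0 h3).copy hu hv, by simp⟩

theorem exP (u v : Fin 7) : ∃ p : G.Walk u v, p.support = L u v :=
  exists_walk _ u v (L_ok u v).1 (L_ok u v).2.1 (L_ok u v).2.2.1 (L_ok u v).2.2.2.1

noncomputable def P : PathSystem G where
  path u v := (exP u v).choose
  isPath u v := by
    rw [Walk.isPath_def, (exP u v).choose_spec]; exact (L_ok u v).2.2.2.2.1
  symm u v := by
    apply Walk.ext_support
    rw [Walk.support_reverse, (exP u v).choose_spec, (exP v u).choose_spec]
    exact (L_ok u v).2.2.2.2.2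

theorem P_support (u v : Fin 7) : (P.path u v).support = L u v := (exP u v).choose_spec

theorem cons_check : ∀ u v : Fin 7, ∀ x ∈ L u v, ∀ y ∈ L u v,
    (L x y <:+: L u v ∨ L y x <:+: L u v) := by
  decide +kernel

theorem P_consistent : Consistent P := by
  intro u v x y hx hy
  rw [P_support] at hx hy
  have := cons_check u v x hx y hy
  simpa only [Walk.isSubwalk_iff_support_isInfix, P_support] using this

theorem P_induced : SimplyInduces w P := by
  intro u v _ q hq hne
  rw [weight_eq, weight_eq, P_support]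
  have h1 := mem_enum q.support ((Walk.isPath_def q).1 hq) q.isChain_adj_support
  have h2 : q.support.length < 8 := by
    have := List.Nodup.length_le_card ((Walk.isPath_def q).1 hq)
    simp at this ⊢; omega
  have h3 := chk_all _ h2 _ h1
  unfold chk at h3
  have h4 : q.support.head? = some u := by
    rw [List.head?_eq_some_head q.support_ne_nil, Walk.head_support]
  have h5 : q.support.getLast? = some v := by
    rw [List.getLast?_eq_some_getLast q.support_ne_nil, Walk.getLast_support]
  rw [h4, h5] at h3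
  simp only [Bool.or_eq_true, decide_eq_true_eq] at h3
  rcases h3 with h3 | h3
  · exact absurd (Walk.ext_support (h3.trans (P_support u v).symm)) hne
  · exact_mod_cast h3

theorem weight_support {w' : Sym2 (Fin 7) → ℝ} {u v : Fin 7} (p : G.Walk u v) :
    weight w' p = ((List.zipWith (fun a b => s(a, b)) p.support p.support.tail).map w').sum := by
  unfold weight
  rw [Walk.edges_eq_zipWith_support]

theorem use {w' : Sym2 (Fin 7) → ℝ} (h : SimplyInduces w' P) (u v : Fin 7) (huv : u ≠ v)
    (l : List (Fin 7)) (h0 : l ≠ []) (h1 : l.head? = some u)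
    (h2 : l.getLast? = some v) (h3 : l.IsChain G.Adj) (h4 : l.Nodup) (h5 : l ≠ L u v) :
    ((List.zipWith (fun a b => s(a, b)) (L u v) (L u v).tail).map w').sum <
      ((List.zipWith (fun a b => s(a, b)) l l.tail).map w').sum := by
  obtain ⟨q, hq⟩ := exists_walk l u v h0 h1 h2 h3
  have := h u v huv q (by rw [Walk.isPath_def, hq]; exact h4) (by
    intro h6; apply h5; rw [← hq, h6, P_support])
  rwa [weight_support, weight_support, hq, P_support] at this

theorem not_positive : ¬ ∃ w' : Sym2 (Fin 7) → ℝ, (∀ e ∈ G.edgeSet, 0 < w' e) ∧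
    SimplyInduces w' P := by
  rintro ⟨w', hpos, h⟩
  have e0 := hpos s(0, 1) (by rw [mem_edgeSet]; decide)
  have h1 := use h 2 3 (by decide) [2, 6, 3] (by decide) (by decide) (by decide) (by decide)
    (by decide) (by decide)
  have h2 := use h 4 5 (by decide) [4, 6, 5] (by decide) (by decide) (by decide) (by decide)
    (by decide) (by decide)
  have h3 := use h 2 4 (by decide) [2, 0, 4] (by decide) (by decide) (by decide) (by decide)
    (by decide) (by decide)
  have h4 := use h 3 5 (by decide) [3, 1, 5] (by decide) (by decide) (by decide) (by decide)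
    (by decide) (by decide)
  rw [show L 2 3 = [2, 0, 1, 3] by decide] at h1
  rw [show L 4 5 = [4, 0, 1, 5] by decide] at h2
  rw [show L 2 4 = [2, 6, 4] by decide] at h3
  rw [show L 3 5 = [3, 6, 5] by decide] at h4
  simp only [List.tail_cons, List.zipWith_cons_cons, List.zipWith_nil_right,
    List.map_cons, List.map_nil, List.sum_cons, List.sum_nil] at h1 h2 h3 h4
  have s1 : (s(4, 0) : Sym2 (Fin 7)) = s(0, 4) := Sym2.eq_swap
  have s2 : (s(3, 1) : Sym2 (Fin 7)) = s(1, 3) := Sym2.eq_swap
  have s3 : (s(4, 6) : Sym2 (Fin 7)) = s(6, 4) := Sym2.eq_swap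
  have s4 : (s(3, 6) : Sym2 (Fin 7)) = s(6, 3) := Sym2.eq_swap
  simp only [s1, s2, s3, s4] at h1 h2 h3 h4
  linarith

theorem G_connected : G.Connected := by
  have hne : Nonempty (Fin 7) := ⟨0⟩
  exact { preconnected := fun u v => ⟨P.path u v⟩, nonempty := hne }

/-- There is a connected graph `G` (on seven vertices) and a consistent path system on `G`
which is simply induced by some real edge weights, but by no strictly positive edge weights. -/
theorem result : ∃ (G : SimpleGraph (Fin 7)) (P : PathSystem G), G.Connected ∧ Consistent P ∧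
    (∃ w : Sym2 (Fin 7) → ℝ, SimplyInduces w P) ∧
    ¬ ∃ w' : Sym2 (Fin 7) → ℝ, (∀ e ∈ G.edgeSet, 0 < w' e) ∧ SimplyInduces w' P :=
  ⟨G, P, G_connected, P_consistent, ⟨w, P_induced⟩, not_positive⟩

end Pool.Agent.Results.MP_11d8b4_co.RealNotPositive
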